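import Pool.Agent.V11230.AStrong5

/-!
# Antistrong and strongly connected arc-disjoint spanning subdigraphs: NP-hardness

First step: a digraph on `V` in which all vertices but `t` have out-degree two gets three new
vertices `h, g, k`, all arcs from `h`, the arcs from `t` to `s, h, g, k`, from `g` to `s, h, k` and
from `k` to `s, h, g`. If `D₁` is antistrong and `D₂` is strong, then every vertex of `V` other than
`t` has exactly one arc in each of them; so all the arcs from `h` to `V`, except possibly the one to
`s`, are in `D₁`, and `D₂` enters `V` only in `s`. So `D₂` contains a Hamiltonian path of `V` from
`s` to `t`. Conversely such a path is completed by the cycle through `h, g, k`.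

Second step: Hamiltonian paths in digraphs of out-degree two. A clause is a ring with the vertices
`(i, 0)`, `(i, 1)` (`i` modulo three) and the arcs from `(i, 0)` to `(i, 1)` and `(i + 1, 0)` and from
`(i, 1)` to `(i - 1, 1)` and to the next vertex of the line of the literal. At the beginning of the
gadget of a variable the path chooses the line of one of its two literals.
-/

namespace Pool.Agent.Results.MP_c99d13_lc.AntistrongStrongHard

open Pool.Agent.NPC Pool.Agent.NPC.V11230.AS

/-- It is NP-hard to decide whether a digraph has two arc-disjoint spanning subdigraphs, the first
one antistrong and the second one strongly connected. -/
theorem result : NPHardP AntistrongStrong := npHard_AntistrongStrong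

end Pool.Agent.Results.MP_c99d13_lc.AntistrongStrongHard
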